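import Pool.Agent.helper37.P2.SpecD

set_option autoImplicit false

open scoped ContDiff Topology
open MeasureTheory Filter Set Metric MvPolynomial Pool.Agent.helper37.QA

namespace Pool.Agent.P2

theorem FIN_pig {I : Type} [Finite I] (A : I → ℕ → Prop)
    (mono : ∀ i, ∀ J J', J ≤ J' → A i J' → A i J) (h : ∀ J, ∃ i, A i J) : ∃ i, ∀ J, A i J := by
  by_contra hc
  push Not at hc
  choose J hJ using hc
  have := Fintype.ofFinite I
  obtain ⟨i, hi⟩ := h (Finset.univ.sup J)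
  exact hJ i (mono i _ _ (Finset.le_sup (Finset.mem_univ i)) hi)

theorem FIN_anti {d : ℕ} {f : Endo 2 d} {Us : ℕ → Set (PP 2)} {K : Set (PP 2)}
    (hC : Core f Us K) : Antitone Us :=
  antitone_nat_of_succ_le fun n => subset_closure.trans (hC.anti n)

theorem FIN_inter {d : ℕ} {f : Endo 2 d} {Us : ℕ → Set (PP 2)} {K : Set (PP 2)}
    (hC : Core f Us K) {p : PP 2} (hp : ∀ J, p ∈ closure (Us J)) : p ∈ K := by
  rw [hC.inter]
  exact mem_iInter.2 fun n => hC.anti n (hp (n + 1))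

theorem FIN_one {d : ℕ} {f : Endo 2 d} {Us : ℕ → Set (PP 2)} {K : Set (PP 2)}
    (hC : Core f Us K)
    (h : ∃ T J2 : ℕ, ∀ J ≥ J2, ∃ p ∈ Us J, ∃ n, 0 < n ∧ n ≤ T ∧ f.map^[n] p = p) :
    ∃ p ∈ K, ∃ n, 0 < n ∧ f.map^[n] p = p := by
  obtain ⟨T, J2, h⟩ := h
  have hA := FIN_anti hC
  obtain ⟨n, hn⟩ := FIN_pig (I := Fin (T + 1))
    (fun n J => 0 < n.val ∧ ∃ p ∈ closure (Us J), f.map^[n.val] p = p)
    (fun n J J' hJ h => ⟨h.1, h.2.imp fun p hp => ⟨closure_mono (hA hJ) hp.1, hp.2⟩⟩)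
    (fun J => by
      obtain ⟨p, hp, n, hn0, hnT, hfp⟩ := h (max J J2) (le_max_right _ _)
      exact ⟨⟨n, Nat.lt_succ_of_le hnT⟩, hn0, p,
        subset_closure (hA (le_max_left J J2) hp), hfp⟩)
  have hcl : IsClosed {p : PP 2 | f.map^[n.val] p = p} :=
    isClosed_eq ((map_cont f).iterate n.val) continuous_id
  obtain ⟨p, hp⟩ := IsCompact.nonempty_iInter_of_sequence_nonempty_isCompact_isClosed
    (fun J => closure (Us J) ∩ {p : PP 2 | f.map^[n.val] p = p})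
    (fun J => inter_subset_inter_left _ (closure_mono (hA (Nat.le_succ J))))
    (fun J => by
      obtain ⟨p, hp, hfp⟩ := (hn J).2
      exact ⟨p, hp, hfp⟩)
    (isClosed_closure.inter hcl).isCompact
    (fun J => isClosed_closure.inter hcl)
  rw [mem_iInter] at hp
  exact ⟨p, FIN_inter hC fun J => (hp J).1, n.val, (hn 0).1, (hp 0).2⟩

theorem FIN_chtcont (ι : Fin 2) : Continuous fun q : ℂ × ℂ => cht ι q.1 q.2 := by
  unfold cht
  refine continuous_pi fun i => ?_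
  by_cases h : ι = 0
  · simp only [h, if_true]
    fin_cases i
    · exact continuous_const
    · exact continuous_fst
    · exact continuous_snd
  · simp only [h, if_false]
    fin_cases i
    · exact continuous_fst
    · exact continuous_const
    · exact continuous_snd

/-- the point of the chart -/
noncomputable def FIN_pt (ι : Fin 2) (q : ℂ × ℂ) : PP 2 := toPP ⟨cht ι q.1 q.2, cht_ne ι q.1 q.2⟩

theorem FIN_ptcont (ι : Fin 2) : Continuous (FIN_pt ι) :=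
  toPP_cont.comp ((FIN_chtcont ι).subtype_mk _)

theorem FIN_two {d : ℕ} {f : Endo 2 d} {Us : ℕ → Set (PP 2)} {K : Set (PP 2)}
    (hCHB : CHB_stmt) (hC : Core f Us K)
    (h : ∃ T : ℕ, ∀ J1 : ℕ, ∃ J ≥ J1, ∃ (ι : Fin 2) (x y y' a : ℂ) (n : ℕ), 0 < n ∧ n ≤ T ∧
      ‖x‖ ≤ 3 ∧ cht ι x y ∈ cone (Us J) ∧ cht ι x y' ∈ cone (Us J) ∧ a ≠ 0 ∧
      It f n (cht ι x y) = a • cht ι x y' ∧ ‖y - y'‖ ≤ (1 / 2 : ℝ) ^ J1) :
    ∃ p ∈ K, ∃ n, 0 < n ∧ f.map^[n] p = p := by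
  obtain ⟨T, h⟩ := h
  have hA := FIN_anti hC
  obtain ⟨R, hR1, hR⟩ := hCHB.1 d f (Us 0) hC.good
  -- the compact sets
  let A : Fin 2 → ℕ → ℕ → Set (ℂ × ℂ × ℂ) := fun ι n J =>
    (closedBall (0 : ℂ) 3 ×ˢ (closedBall (0 : ℂ) R ×ˢ closedBall (0 : ℂ) R)) ∩
      ((fun q : ℂ × ℂ × ℂ => FIN_pt ι (q.1, q.2.1)) ⁻¹' closure (Us J) ∩
      ({q : ℂ × ℂ × ℂ | f.map^[n] (FIN_pt ι (q.1, q.2.1)) = FIN_pt ι (q.1, q.2.2)} ∩
        {q : ℂ × ℂ × ℂ | ‖q.2.1 - q.2.2‖ ≤ (1 / 2 : ℝ) ^ J}))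
  have hAmono : ∀ ι n J J', J ≤ J' → A ι n J' ⊆ A ι n J := by
    intro ι n J J' hJ q hq
    refine ⟨hq.1, closure_mono (hA hJ) hq.2.1, hq.2.2.1, ?_⟩
    have h1 : ‖q.2.1 - q.2.2‖ ≤ (1 / 2 : ℝ) ^ J' := hq.2.2.2
    have h2 : (1 / 2 : ℝ) ^ J' ≤ (1 / 2 : ℝ) ^ J :=
      pow_le_pow_of_le_one (by norm_num) (by norm_num) hJ
    exact h1.trans h2
  have hc1 : ∀ ι, Continuous fun q : ℂ × ℂ × ℂ => FIN_pt ι (q.1, q.2.1) := fun ι =>
    (FIN_ptcont ι).comp (continuous_fst.prodMk (continuous_fst.comp continuous_snd))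
  have hc2 : ∀ ι, Continuous fun q : ℂ × ℂ × ℂ => FIN_pt ι (q.1, q.2.2) := fun ι =>
    (FIN_ptcont ι).comp (continuous_fst.prodMk (continuous_snd.comp continuous_snd))
  have hAcl : ∀ ι n J, IsClosed (A ι n J) := by
    intro ι n J
    refine IsClosed.inter (isClosed_closedBall.prod (isClosed_closedBall.prod isClosed_closedBall))
      (IsClosed.inter (isClosed_closure.preimage (hc1 ι)) (IsClosed.inter ?_ ?_))
    · exact isClosed_eq (((map_cont f).iterate n).comp (hc1 ι)) (hc2 ι)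
    · exact isClosed_le (by fun_prop) continuous_const
  have hAcpt : ∀ ι n J, IsCompact (A ι n J) := by
    intro ι n J
    refine IsCompact.of_isClosed_subset ?_ (hAcl ι n J) inter_subset_left
    exact (isCompact_closedBall _ _).prod ((isCompact_closedBall _ _).prod (isCompact_closedBall _ _))
  have hne : ∀ J1, ∃ i : Fin 2 × Fin (T + 1), 0 < i.2.val ∧ (A i.1 i.2.val J1).Nonempty := by
    intro J1
    obtain ⟨J, hJ, ι, x, y, y', a, n, hn0, hnT, hx, hy, hy', ha, hIt, hyy⟩ := h J1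
    refine ⟨(ι, ⟨n, Nat.lt_succ_of_le hnT⟩), hn0, (x, y, y'), ?_⟩
    have hU : ∀ z, cht ι x z ∈ cone (Us J) → ‖z‖ ≤ R ∧ FIN_pt ι (x, z) ∈ Us J1 := by
      intro z hz
      obtain ⟨hz0, hzU⟩ := hz
      exact ⟨hR ι x z hx ⟨hz0, hA (Nat.zero_le J) hzU⟩, hA hJ hzU⟩
    refine ⟨⟨?_, ?_, ?_⟩, ?_, ?_, ?_⟩
    · simpa using hx
    · simpa using (hU y hy).1
    · simpa using (hU y' hy').1
    · exact subset_closure (hU y hy).2
    · show f.map^[n] (FIN_pt ι (x, y)) = FIN_pt ι (x, y')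
      unfold FIN_pt
      rw [map_iter]
      exact toPP_eq _ (cht_ne ι x y') a hIt.symm
    · exact hyy
  obtain ⟨i, hi⟩ := FIN_pig (I := Fin 2 × Fin (T + 1))
    (fun i J => 0 < i.2.val ∧ (A i.1 i.2.val J).Nonempty)
    (fun i J J' hJ h => ⟨h.1, h.2.mono (hAmono _ _ _ _ hJ)⟩) hne
  obtain ⟨q, hq⟩ := IsCompact.nonempty_iInter_of_sequence_nonempty_isCompact_isClosed
    (fun J => A i.1 i.2.val J) (fun J => hAmono _ _ _ _ (Nat.le_succ J)) (fun J => (hi J).2)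
    (hAcpt _ _ 0) (fun J => hAcl _ _ J)
  rw [mem_iInter] at hq
  have hqe : q.2.1 = q.2.2 := by
    have h1 : ∀ J : ℕ, ‖q.2.1 - q.2.2‖ ≤ (1 / 2 : ℝ) ^ J := fun J => (hq J).2.2.2
    have h2 : Tendsto (fun J : ℕ => (1 / 2 : ℝ) ^ J) atTop (𝓝 0) :=
      tendsto_pow_atTop_nhds_zero_of_lt_one (by norm_num) (by norm_num)
    have h3 : ‖q.2.1 - q.2.2‖ ≤ 0 := ge_of_tendsto' h2 h1
    exact sub_eq_zero.1 (norm_le_zero_iff.1 h3)
  refine ⟨FIN_pt i.1 (q.1, q.2.1), FIN_inter hC fun J => (hq J).2.1, i.2.val, (hi 0).1, ?_⟩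
  have h4 : f.map^[i.2.val] (FIN_pt i.1 (q.1, q.2.1)) = FIN_pt i.1 (q.1, q.2.2) := (hq 0).2.2.1
  rw [h4, hqe]

theorem FIN (hCHB : CHB_stmt) : FIN_stmt := by
  intro d f Us K _ hC
  exact ⟨FIN_one hC, FIN_two hCHB hC⟩

end Pool.Agent.P2
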