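import Pool.Agent.helper83.P2.SpecS0

set_option autoImplicit false

namespace Pool.Agent.P2

open Metric Filter Topology MeasureTheory
open Pool.Agent.helper37.QA

noncomputable section

open Laplacian ContinuousLinearMap Complex in
theorem SWE_lap (f : ℂ → ℝ) (x : ℂ) (hf : ContDiffAt ℝ 2 f x) :
    (Δ f) x = fderiv ℝ (fun b => fderiv ℝ f b 1) x 1 + fderiv ℝ (fun b => fderiv ℝ f b I) x I := by
  have hd : DifferentiableAt ℝ (fderiv ℝ f) x :=
    (hf.fderiv_right (m := 1) (by norm_num)).differentiableAt (by norm_num)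
  have key : ∀ e : ℂ, fderiv ℝ (fun b => fderiv ℝ f b e) x e = fderiv ℝ (fderiv ℝ f) x e e := by
    intro e
    rw [fderiv_clm_apply hd (differentiableAt_const e)]
    simp
  rw [InnerProductSpace.laplacian_eq_iteratedFDeriv_complexPlane, key, key]
  simp [iteratedFDeriv_two_apply]

/-- derivative of a convolution in a direction -/
theorem SWE_d (w ρ : ℂ → ℝ) (hw : LocallyIntegrable w volume) (hρ : ContDiff ℝ (⊤ : ℕ∞) ρ)
    (hc : HasCompactSupport ρ) (e x : ℂ) :
    fderiv ℝ (convolution w ρ (ContinuousLinearMap.lsmul ℝ ℝ) volume) x e =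
      convolution w (fun a => fderiv ℝ ρ a e) (ContinuousLinearMap.lsmul ℝ ℝ) volume x := by
  have h1 : ContDiff ℝ 1 ρ := hρ.of_le (by exact_mod_cast le_top)
  have h := hc.hasFDerivAt_convolution_right (ContinuousLinearMap.lsmul ℝ ℝ) hw h1 x
  rw [h.fderiv]
  exact convolution_precompR_apply (ContinuousLinearMap.lsmul ℝ ℝ) hw (hc.fderiv ℝ)
    (h1.continuous_fderiv one_ne_zero) x e

theorem SWE_dρ (ρ : ℂ → ℝ) (hρ : ContDiff ℝ (⊤ : ℕ∞) ρ) (e : ℂ) :
    ContDiff ℝ (⊤ : ℕ∞) (fun a => fderiv ℝ ρ a e) := by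
  have : ContDiff ℝ (⊤ : ℕ∞) (fderiv ℝ ρ) := hρ.fderiv_right (by exact_mod_cast le_rfl)
  exact this.clm_apply contDiff_const

theorem SWE_sup (ρ : ℂ → ℝ) (e : ℂ) : tsupport (fun a => fderiv ℝ ρ a e) ⊆ tsupport ρ :=
  tsupport_fderiv_apply_subset ℝ e

theorem SWE_chi (f : ℂ → ℝ) (hf : Differentiable ℝ f) (x e t : ℂ) :
    fderiv ℝ (fun b => f (x - b)) t e = - fderiv ℝ f (x - t) e := by
  have h : HasFDerivAt (fun b => f (x - b))
      ((fderiv ℝ f (x - t)).comp (0 - ContinuousLinearMap.id ℝ ℂ)) t :=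
    (hf (x - t)).hasFDerivAt.comp t ((hasFDerivAt_const x t).sub (hasFDerivAt_id t))
  rw [h.fderiv]
  simp

/-- the Laplacian of a mollification -/
theorem SWE_conv (w ρ : ℂ → ℝ) (hw : LocallyIntegrable w volume) (hρ : ContDiff ℝ (⊤ : ℕ∞) ρ)
    (hc : HasCompactSupport ρ) (x : ℂ) :
    (Laplacian.laplacian (convolution w ρ (ContinuousLinearMap.lsmul ℝ ℝ) volume) : ℂ → ℝ) x =
      ∫ t, w t * (Laplacian.laplacian (fun b => ρ (x - b)) : ℂ → ℝ) t := by
  have hC : ContDiff ℝ (⊤ : ℕ∞) (convolution w ρ (ContinuousLinearMap.lsmul ℝ ℝ) volume) :=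
    hc.contDiff_convolution_right (ContinuousLinearMap.lsmul ℝ ℝ) hw hρ
  have h2 : ContDiff ℝ 2 (convolution w ρ (ContinuousLinearMap.lsmul ℝ ℝ) volume) :=
    by exact_mod_cast contDiff_infty.1 hC 2
  have hc1 : ∀ e, HasCompactSupport (fun a => fderiv ℝ ρ a e) := fun e =>
    hc.of_isClosed_subset (isClosed_tsupport _) (SWE_sup ρ e)
  have hc2 : ∀ e, HasCompactSupport (fun a => fderiv ℝ (fun b => fderiv ℝ ρ b e) a e) := fun e =>
    (hc1 e).of_isClosed_subset (isClosed_tsupport _) (SWE_sup _ e)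
  have hD : ∀ e y, fderiv ℝ (fun b => fderiv ℝ (convolution w ρ (ContinuousLinearMap.lsmul ℝ ℝ)
      volume) b e) y e = convolution w (fun a => fderiv ℝ (fun b => fderiv ℝ ρ b e) a e)
        (ContinuousLinearMap.lsmul ℝ ℝ) volume y := by
    intro e y
    have e1 : (fun b => fderiv ℝ (convolution w ρ (ContinuousLinearMap.lsmul ℝ ℝ) volume) b e) =
        convolution w (fun a => fderiv ℝ ρ a e) (ContinuousLinearMap.lsmul ℝ ℝ) volume := by
      funext b
      exact SWE_d w ρ hw hρ hc e b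
    rw [e1]
    exact SWE_d w _ hw (SWE_dρ ρ hρ e) (hc1 e) e y
  rw [SWE_lap _ x h2.contDiffAt, hD, hD, convolution_lsmul, convolution_lsmul]
  have hex : ∀ e, Integrable (fun t => w t • fderiv ℝ (fun b => fderiv ℝ ρ b e) (x - t) e) volume := by
    intro e
    exact (hc2 e).convolutionExists_right (ContinuousLinearMap.lsmul ℝ ℝ) hw
      (SWE_dρ _ (SWE_dρ ρ hρ e) e).continuous x
  rw [← integral_add (hex 1) (hex Complex.I)]
  congr 1
  funext t
  have hχ : ContDiff ℝ (⊤ : ℕ∞) (fun b => ρ (x - b)) := hρ.comp (contDiff_const.sub contDiff_id)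
  have hχ2 : ContDiff ℝ 2 (fun b => ρ (x - b)) := by exact_mod_cast contDiff_infty.1 hχ 2
  have hρd : Differentiable ℝ ρ := hρ.differentiable (by simp)
  have key : ∀ e, fderiv ℝ (fun b => fderiv ℝ (fun b => ρ (x - b)) b e) t e =
      fderiv ℝ (fun b => fderiv ℝ ρ b e) (x - t) e := by
    intro e
    have e1 : (fun b => fderiv ℝ (fun b => ρ (x - b)) b e) =
        fun b => - (fun a => fderiv ℝ ρ a e) (x - b) := by
      funext b
      exact SWE_chi ρ hρd x e b
    rw [e1]
    have e2 : fderiv ℝ (fun b => - (fun a => fderiv ℝ ρ a e) (x - b)) t =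
        - fderiv ℝ (fun b => (fun a => fderiv ℝ ρ a e) (x - b)) t := by
      exact fderiv_neg
    rw [e2]
    have e3 := SWE_chi (fun a => fderiv ℝ ρ a e) ((SWE_dρ ρ hρ e).differentiable (by simp)) x e t
    rw [_root_.neg_apply, e3, neg_neg]
  rw [SWE_lap _ t hχ2.contDiffAt, key, key]
  simp only [smul_eq_mul]
  ring

/-- the mollified function is harmonic -/
theorem SWE_harm (v : ℂ → ℝ)
    (h : ∀ χ : ℂ → ℝ, ContDiff ℝ (⊤ : ℕ∞) χ → HasCompactSupport χ → tsupport χ ⊆ ball 0 1 →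
      ∫ z, v z * (Laplacian.laplacian χ : ℂ → ℝ) z = 0) (r : ℝ) (hr1 : r < 1)
    (hw : LocallyIntegrable ((closedBall (0 : ℂ) r).indicator v) volume)
    (ρ : ℂ → ℝ) (hρ : ContDiff ℝ (⊤ : ℕ∞) ρ) (ε : ℝ) (hs : tsupport ρ ⊆ closedBall 0 ε)
    (x : ℂ) (hx : ‖x‖ + ε < r) :
    (Laplacian.laplacian (convolution ((closedBall (0 : ℂ) r).indicator v) ρ
      (ContinuousLinearMap.lsmul ℝ ℝ) volume) : ℂ → ℝ) x = 0 := by
  have hc : HasCompactSupport ρ := (isCompact_closedBall (0 : ℂ) ε).of_isClosed_subset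
    (isClosed_tsupport _) hs
  rw [SWE_conv _ ρ hw hρ hc x]
  have hχ : ContDiff ℝ (⊤ : ℕ∞) (fun b => ρ (x - b)) := hρ.comp (contDiff_const.sub contDiff_id)
  have hχ2 : ContDiff ℝ 2 (fun b => ρ (x - b)) := by exact_mod_cast contDiff_infty.1 hχ 2
  have hts : tsupport (fun b => ρ (x - b)) ⊆ closedBall x ε := by
    apply closure_minimal _ isClosed_closedBall
    intro t ht
    have h1 : x - t ∈ tsupport ρ := subset_tsupport ρ ht
    have h2 := hs h1
    rw [mem_closedBall, dist_eq_norm] at h2 ⊢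
    rw [norm_sub_rev]
    simpa using h2
  have hsub : closedBall x ε ⊆ closedBall (0 : ℂ) r := by
    intro t ht
    rw [mem_closedBall, dist_eq_norm] at ht
    rw [mem_closedBall, dist_zero_right]
    have : ‖t‖ ≤ ‖x‖ + ‖t - x‖ := by
      have := norm_add_le x (t - x)
      simpa using this
    linarith
  have hsub1 : closedBall x ε ⊆ ball (0 : ℂ) 1 := fun t ht =>
    closedBall_subset_ball hr1 (hsub ht)
  have hcχ : HasCompactSupport (fun b => ρ (x - b)) := (isCompact_closedBall x ε).of_isClosed_subset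
    (isClosed_tsupport _) hts
  rw [← h _ hχ hcχ (hts.trans hsub1)]
  congr 1
  funext t
  by_cases ht : t ∈ closedBall (0 : ℂ) r
  · rw [Set.indicator_of_mem ht]
  · have h1 : t ∉ tsupport (fun b => ρ (x - b)) := fun hh => ht (hsub (hts hh))
    have h2 : (Laplacian.laplacian (fun b => ρ (x - b)) : ℂ → ℝ) t = 0 := by
      rw [SWE_lap _ t hχ2.contDiffAt]
      have key : ∀ e, fderiv ℝ (fun b => fderiv ℝ (fun b => ρ (x - b)) b e) t = 0 := by
        intro e
        apply fderiv_of_notMem_tsupport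
        exact fun hh => h1 (SWE_sup _ e hh)
      rw [key, key]
      simp
    rw [h2]
    simp

open Complex Real in
/-- the Cauchy type integral -/
theorem SWE_G (v : ℂ → ℝ) (s : ℝ) (hs : 0 < s) (hv : ContinuousOn v (sphere 0 s)) :
    DifferentiableOn ℂ (fun w => Real.circleAverage (fun ζ => herglotzRieszKernel 0 w ζ • (v ζ : ℂ))
      0 s) (ball 0 s) := by
  lift s to NNReal using hs.le with s' hs'
  have hs0 : (0 : NNReal) < s' := by exact_mod_cast hs
  have hc : ContinuousOn (fun ζ => (v ζ : ℂ)) (sphere 0 (s' : ℝ)) :=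
    Complex.continuous_ofReal.comp_continuousOn hv
  have hci : CircleIntegrable (fun ζ => (v ζ : ℂ)) 0 (s' : ℝ) := hc.circleIntegrable s'.2
  have h1 := hasFPowerSeriesOn_cauchy_integral hci hs0
  have h2 : DifferentiableOn ℂ (fun w => (2 * π * I : ℂ)⁻¹ • ∮ z in C(0, (s' : ℝ)), (z - w)⁻¹ •
      (v z : ℂ)) (ball 0 (s' : ℝ)) := by
    have := h1.differentiableOn
    rwa [Metric.eball_coe] at this
  have h3 : DifferentiableOn ℂ (fun w => 2 * ((2 * π * I : ℂ)⁻¹ • ∮ z in C(0, (s' : ℝ)),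
      (z - w)⁻¹ • (v z : ℂ)) - (2 * π * I : ℂ)⁻¹ • ∮ z in C(0, (s' : ℝ)), z⁻¹ • (v z : ℂ))
      (ball 0 (s' : ℝ)) := (h2.const_mul 2).sub_const _
  refine h3.congr fun w hw => ?_
  rw [Real.circleAverage_eq_circleIntegral hs.ne']
  have hne : ∀ z ∈ sphere (0 : ℂ) (s' : ℝ), z - w ≠ 0 := by
    intro z hz h0
    rw [sub_eq_zero] at h0
    rw [h0, mem_sphere] at hz
    rw [mem_ball] at hw
    linarith
  have hne0 : ∀ z ∈ sphere (0 : ℂ) (s' : ℝ), z ≠ 0 := by
    intro z hz h0
    rw [h0, mem_sphere] at hz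
    simp at hz
    exact hs0.ne (by exact_mod_cast hz)
  have i1 : CircleIntegrable (fun z => (2 : ℂ) • ((z - w)⁻¹ • (v z : ℂ))) 0 (s' : ℝ) := by
    apply ContinuousOn.circleIntegrable s'.2
    have c1 : ContinuousOn (fun z : ℂ => (z - w)⁻¹) (sphere 0 (s' : ℝ)) :=
      (continuousOn_id.sub continuousOn_const).inv₀ hne
    exact (c1.smul hc).const_smul (2 : ℂ)
  have i2 : CircleIntegrable (fun z => z⁻¹ • (v z : ℂ)) 0 (s' : ℝ) := by
    apply ContinuousOn.circleIntegrable s'.2
    have c1 : ContinuousOn (fun z : ℂ => z⁻¹) (sphere 0 (s' : ℝ)) := continuousOn_id.inv₀ hne0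
    exact c1.smul hc
  have e1 : (∮ z in C(0, (s' : ℝ)), (z - 0)⁻¹ • (herglotzRieszKernel 0 w z • (v z : ℂ))) =
      2 * (∮ z in C(0, (s' : ℝ)), (z - w)⁻¹ • (v z : ℂ)) -
        ∮ z in C(0, (s' : ℝ)), z⁻¹ • (v z : ℂ) := by
    have e2 : (2 : ℂ) * (∮ z in C(0, (s' : ℝ)), (z - w)⁻¹ • (v z : ℂ)) =
        ∮ z in C(0, (s' : ℝ)), (2 : ℂ) • ((z - w)⁻¹ • (v z : ℂ)) := by
      rw [circleIntegral.integral_smul, smul_eq_mul]
    rw [e2, ← circleIntegral.integral_sub i1 i2]
    apply circleIntegral.integral_congr s'.2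
    intro z hz
    have n1 := hne z hz
    have n2 := hne0 z hz
    simp only [herglotzRieszKernel_def, sub_zero, smul_eq_mul]
    field_simp
    ring
  rw [e1]
  simp only [smul_eq_mul]
  ring

/-- Poisson formula for `v` -/
theorem SWE_poisson (v : ℂ → ℝ) (hv : ContinuousOn v (ball 0 1))
    (h : ∀ χ : ℂ → ℝ, ContDiff ℝ (⊤ : ℕ∞) χ → HasCompactSupport χ → tsupport χ ⊆ ball 0 1 →
      ∫ z, v z * (Laplacian.laplacian χ : ℂ → ℝ) z = 0) (s : ℝ) (hs : 0 < s) (hs1 : s < 1)
    (w : ℂ) (hw : w ∈ ball (0 : ℂ) s) :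
    Real.circleAverage ((Complex.re ∘ herglotzRieszKernel 0 w) • v) 0 s = v w := by
  -- the radius
  set r : ℝ := (1 + s) / 2 with hr
  have hsr : s < r := by rw [hr]; linarith
  have hr1 : r < 1 := by rw [hr]; linarith
  have hcr : ContinuousOn v (closedBall 0 r) := hv.mono (closedBall_subset_ball hr1)
  have hww : ‖w‖ < s := by simpa using hw
  have hwl : LocallyIntegrable ((closedBall (0 : ℂ) r).indicator v) volume := by
    apply Integrable.locallyIntegrable
    rw [integrable_indicator_iff isClosed_closedBall.measurableSet]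
    exact hcr.integrableOn_compact (isCompact_closedBall _ _)
  have hK : ∀ z ∈ sphere (0 : ℂ) |s|, |(Complex.re ∘ herglotzRieszKernel 0 w) z| ≤
      (s + ‖w‖) / (s - ‖w‖) := by
    intro z hz
    rw [abs_of_pos hs] at hz
    have h1 := re_herglotzRieszKernel_le hz hw
    have h2 := le_re_herglotzRieszKernel hz hw
    have h3 : 0 ≤ (s - ‖w - 0‖) / (s + ‖w - 0‖) := by
      rw [sub_zero]
      apply div_nonneg <;> linarith [norm_nonneg w]
    rw [Function.comp_apply, herglotzRieszKernel_def, abs_of_nonneg (h3.trans h2)]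
    simpa using h1
  set K : ℝ := (s + ‖w‖) / (s - ‖w‖) with hKd
  have hK0 : 0 ≤ K := div_nonneg (by linarith [norm_nonneg w]) (by linarith)
  by_contra hne
  set D : ℝ := |Real.circleAverage ((Complex.re ∘ herglotzRieszKernel 0 w) • v) 0 s - v w|
    with hD
  have hDpos : 0 < D := abs_pos.2 (sub_ne_zero.2 hne)
  set δ : ℝ := D / (2 * (K + 1)) with hδ
  have hδpos : 0 < δ := by positivity
  -- uniform continuity
  have huc := (isCompact_closedBall (0 : ℂ) r).uniformContinuousOn_of_continuous hcr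
  obtain ⟨η, hη, huc⟩ := Metric.uniformContinuousOn_iff.1 huc δ hδpos
  set ε : ℝ := min η ((r - s) / 2) with hε
  have hεpos : 0 < ε := lt_min hη (by linarith)
  have hεη : ε ≤ η := min_le_left _ _
  have hεr : ε ≤ (r - s) / 2 := min_le_right _ _
  let ψ : ContDiffBump (0 : ℂ) := ⟨ε / 2, ε, by linarith, by linarith⟩
  set ρ : ℂ → ℝ := ψ.normed volume with hρ
  have hρs : ContDiff ℝ (⊤ : ℕ∞) ρ := ψ.contDiff_normed
  have hρt : tsupport ρ = closedBall 0 ε := ψ.tsupport_normed_eq
  have hρc : HasCompactSupport ρ := ψ.hasCompactSupport_normed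
  set φ : ℂ → ℝ := convolution ((closedBall (0 : ℂ) r).indicator v) ρ
      (ContinuousLinearMap.lsmul ℝ ℝ) volume with hφ
  have hφC : ContDiff ℝ (⊤ : ℕ∞) φ :=
    hρc.contDiff_convolution_right (ContinuousLinearMap.lsmul ℝ ℝ) hwl hρs
  have hφ2 : ContDiff ℝ 2 φ := by exact_mod_cast contDiff_infty.1 hφC 2
  have hφh : InnerProductSpace.HarmonicOnNhd φ (closedBall 0 s) := by
    intro x hx
    refine ⟨hφ2.contDiffAt, ?_⟩
    have hx' : x ∈ ball (0 : ℂ) ((r + s) / 2) := by
      rw [mem_closedBall] at hx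
      rw [mem_ball]
      linarith
    filter_upwards [isOpen_ball.mem_nhds hx'] with y hy
    apply SWE_harm v h r hr1 hwl ρ hρs ε hρt.subset y
    rw [mem_ball, dist_zero_right] at hy
    linarith
  have hφv : ∀ x ∈ closedBall (0 : ℂ) s, |φ x - v x| ≤ δ := by
    intro x hx
    have hx1 : ‖x‖ ≤ s := by simpa using hx
    have hxr : x ∈ closedBall (0 : ℂ) r := closedBall_subset_closedBall hsr.le hx
    have e1 : φ x = convolution ρ ((closedBall (0 : ℂ) r).indicator v)
      (ContinuousLinearMap.lsmul ℝ ℝ) volume x := by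
      rw [hφ, convolution_lsmul, convolution_lsmul_swap]
      congr 1
      funext t
      simp only [smul_eq_mul]
      ring
    have e2 := ContDiffBump.dist_normed_convolution_le (φ := ψ) (μ := volume) (x₀ := x) (ε := δ)
      (g := (closedBall (0 : ℂ) r).indicator v) hwl.aestronglyMeasurable (by
        intro y hy
        have hy' : dist y x < ε := hy
        have hyr : y ∈ closedBall (0 : ℂ) r := by
          rw [mem_closedBall, dist_zero_right]
          have h1 : ‖y‖ ≤ ‖x‖ + ‖y - x‖ := by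
            have := norm_add_le x (y - x)
            simpa using this
          rw [dist_eq_norm] at hy'
          linarith
        rw [Set.indicator_of_mem hyr, Set.indicator_of_mem hxr]
        exact (huc y hyr x hxr (hy'.trans_le hεη)).le)
    rw [Set.indicator_of_mem hxr, Real.dist_eq] at e2
    rw [e1]
    exact e2
  have hP := InnerProductSpace.HarmonicOnNhd.circleAverage_re_herglotzRieszKernel_smul hφh hw
  have hsph : sphere (0 : ℂ) |s| ⊆ closedBall 0 s := by
    rw [abs_of_pos hs]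
    exact sphere_subset_closedBall
  have hkc : ContinuousOn (Complex.re ∘ herglotzRieszKernel 0 w) (sphere (0 : ℂ) |s|) :=
    Complex.continuous_re.comp_continuousOn (continuousOn_herglotzRieszKernel_sphere hw)
  have hi1 : CircleIntegrable ((Complex.re ∘ herglotzRieszKernel 0 w) • φ) 0 s := by
    apply ContinuousOn.circleIntegrable'
    exact hkc.smul hφC.continuous.continuousOn
  have hi2 : CircleIntegrable ((Complex.re ∘ herglotzRieszKernel 0 w) • v) 0 s := by
    apply ContinuousOn.circleIntegrable'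
    exact hkc.smul (hcr.mono (hsph.trans (closedBall_subset_closedBall hsr.le)))
  have hbd : |Real.circleAverage ((Complex.re ∘ herglotzRieszKernel 0 w) • v) 0 s -
      Real.circleAverage ((Complex.re ∘ herglotzRieszKernel 0 w) • φ) 0 s| ≤ K * δ := by
    rw [← Real.circleAverage_sub hi2 hi1]
    refine Real.abs_circleAverage_le_circleAverage_abs.trans ?_
    apply Real.circleAverage_mono_on_of_le_circle (hi2.sub hi1).abs
    intro z hz
    have h1 := hK z hz
    have h2 := hφv z (hsph hz)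
    have e0 : |(Complex.re ∘ herglotzRieszKernel 0 w) • v - (Complex.re ∘ herglotzRieszKernel 0 w) • φ| z =
        |(Complex.re ∘ herglotzRieszKernel 0 w) z| * |φ z - v z| := by
      show |(Complex.re ∘ herglotzRieszKernel 0 w) z * v z - (Complex.re ∘ herglotzRieszKernel 0 w) z * φ z| = _
      rw [← mul_sub, abs_mul, abs_sub_comm (v z)]
    rw [e0]
    exact mul_le_mul h1 h2 (abs_nonneg _) hK0
  rw [hP] at hbd
  have h3 := hφv w (ball_subset_closedBall hw)
  have h4 : D ≤ K * δ + δ := by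
    rw [hD]
    have := abs_add_le (Real.circleAverage ((Complex.re ∘ herglotzRieszKernel 0 w) • v) 0 s -
      φ w) (φ w - v w)
    rw [sub_add_sub_cancel] at this
    linarith
  have h5 : K * δ + δ = D / 2 := by
    rw [hδ]
    field_simp
  linarith

theorem SWE_core : ∀ v : ℂ → ℝ, ContinuousOn v (ball 0 1) →
    (∀ χ : ℂ → ℝ, ContDiff ℝ (⊤ : ℕ∞) χ → HasCompactSupport χ → tsupport χ ⊆ ball 0 1 →
      ∫ z, v z * (Laplacian.laplacian χ : ℂ → ℝ) z = 0) →
    ∃ g : ℂ → ℂ, DifferentiableOn ℂ g (ball 0 1) ∧ ∀ t ∈ ball (0 : ℂ) 1, v t = (g t).re := by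
  intro v hv h
  have hH : InnerProductSpace.HarmonicOnNhd v (ball 0 1) := by
    intro x hx
    have hx1 : ‖x‖ < 1 := by simpa using hx
    set s : ℝ := (1 + ‖x‖) / 2 with hs
    have hs0 : 0 < s := by rw [hs]; linarith [norm_nonneg x]
    have hs1 : s < 1 := by rw [hs]; linarith
    have hxs : x ∈ ball (0 : ℂ) s := by
      rw [mem_ball, dist_zero_right, hs]; linarith
    have hvs : ContinuousOn v (sphere 0 s) :=
      hv.mono (sphere_subset_closedBall.trans (closedBall_subset_ball hs1))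
    have hG := SWE_G v s hs0 hvs
    have hA : AnalyticAt ℂ (fun w => Real.circleAverage (fun ζ =>
        herglotzRieszKernel 0 w ζ • (v ζ : ℂ)) 0 s) x :=
      hG.analyticAt (isOpen_ball.mem_nhds hxs)
    have hh := hA.harmonicAt_re
    refine (InnerProductSpace.harmonicAt_congr_nhds ?_).1 hh
    filter_upwards [isOpen_ball.mem_nhds hxs] with w hw
    have h1 := SWE_poisson v hv h s hs0 hs1 w hw
    have h2 := re_circleAverage_herglotzRieszKernel_smul
      (hvs.circleIntegrable hs0.le) hw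
    rw [← h1, ← h2]
  obtain ⟨F, hF, hE⟩ := InnerProductSpace.HarmonicOnNhd.exists_analyticOnNhd_ball_re_eq hH
  exact ⟨F, hF.differentiableOn, fun t ht => (hE ht).symm⟩

theorem SWE : SWE_stmt := SWE_core

end

end Pool.Agent.P2
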