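import Pool.Agent.helper83.P2.SpecV
import Pool.Agent.helper80.P2.ENC
import Pool.Agent.helper80.P2.ENT
import Pool.Agent.helper80.P2.PSC
import Pool.Agent.helper15.P2.UN1

/-!
# Row p2:VCP
-/

set_option autoImplicit false

open scoped ContDiff Topology
open MeasureTheory Filter Set Metric MvPolynomial Pool.Agent.helper37.QA Pool.Agent.P2

namespace Pool.Agent.P2V

/-! ### algebra -/

theorem VCP_crs_add (H X Y : E3) : crs H (X + Y) = crs H X + crs H Y := by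
  funext i
  fin_cases i
  · simp [crs]; ring
  · simp [crs]; ring
  · simp [crs]; ring

theorem VCP_crs_smul (H : E3) (s : ℂ) (X : E3) : crs H (s • X) = s • crs H X := by
  funext i
  fin_cases i
  · simp [crs]; ring
  · simp [crs]; ring
  · simp [crs]; ring

theorem VCP_crs_smul' (H : E3) (s : ℂ) (X : E3) : crs (s • H) X = s • crs H X := by
  funext i
  fin_cases i
  · simp [crs]; ring
  · simp [crs]; ring
  · simp [crs]; ring

theorem VCP_crs_self (H : E3) : crs H H = 0 := by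
  funext i
  fin_cases i
  · simp [crs]; ring
  · simp [crs]; ring
  · simp [crs]; ring

theorem VCP_nq0 (X : E3) : 0 ≤ nq X := by
  unfold nq
  exact Finset.sum_nonneg fun i _ => Complex.normSq_nonneg _

theorem VCP_dec (X : E3) : X = X 0 • (Pi.single 0 1 : E3) + X 1 • (Pi.single 1 1 : E3) +
    X 2 • (Pi.single 2 1 : E3) := by
  funext i
  fin_cases i <;> simp

/-- Cauchy-Schwarz for `X ↦ H × A X` -/
theorem VCP_cs (H : E3) (A : E3 →L[ℂ] E3) (X : E3) :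
    nq (crs H (A X)) ≤ nq X * ∑ i : Fin 3, nq (crs H (A (Pi.single i 1))) := by
  have h1 : crs H (A X) = X 0 • crs H (A (Pi.single 0 1)) + X 1 • crs H (A (Pi.single 1 1)) +
      X 2 • crs H (A (Pi.single 2 1)) := by
    conv_lhs => rw [VCP_dec X]
    rw [map_add, map_add, map_smul, map_smul, map_smul, VCP_crs_add, VCP_crs_add, VCP_crs_smul,
      VCP_crs_smul, VCP_crs_smul]
  have h2 : ∀ i : Fin 3, Complex.normSq (crs H (A X) i) ≤ nq X *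
      nq (fun j : Fin 3 => crs H (A (Pi.single j 1)) i) := by
    intro i
    rw [h1]
    exact ENT_cs X (fun j : Fin 3 => crs H (A (Pi.single j 1)) i)
  have a0 := h2 0
  have a1 := h2 1
  have a2 := h2 2
  rw [ENC_nq3] at a0 a1 a2
  rw [Fin.sum_univ_three, ENC_nq3 (crs H (A X)), ENC_nq3 X, ENC_nq3 (crs H (A (Pi.single 0 1))),
    ENC_nq3 (crs H (A (Pi.single 1 1))), ENC_nq3 (crs H (A (Pi.single 2 1)))]
  rw [ENC_nq3] at a0 a1 a2
  linarith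

/-! ### the point of the tube -/

/-- the derivative of `gp` in the first variable -/
noncomputable def VCP_X (ι : Fin 2) (κ : ℝ) (b : ℂ) : E3 := if ι = 0 then ![0, κ, b] else ![κ, 0, b]

theorem VCP_gpd (ι : Fin 2) (c : ℂ) (κ : ℝ) (γ : ℂ → ℂ) (p : ℂ × ℂ) (hγ : DifferentiableAt ℂ γ p.1) :
    ∃ L : ℂ × ℂ →L[ℂ] E3, HasFDerivAt (gp ι c κ γ) L p ∧ L (1, 0) = VCP_X ι κ (deriv γ p.1) ∧
      L (0, 1) = Pi.single 2 1 := by
  have h1 : HasFDerivAt (fun q : ℂ × ℂ => q.1) (ContinuousLinearMap.fst ℂ ℂ ℂ) p := hasFDerivAt_fst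
  have h2 : HasFDerivAt (fun q : ℂ × ℂ => q.2) (ContinuousLinearMap.snd ℂ ℂ ℂ) p := hasFDerivAt_snd
  have h3 : HasFDerivAt (fun q : ℂ × ℂ => γ q.1) (deriv γ p.1 • ContinuousLinearMap.fst ℂ ℂ ℂ) p :=
    hγ.hasDerivAt.comp_hasFDerivAt p h1
  have h4 : HasFDerivAt (fun q : ℂ × ℂ => c + (κ : ℂ) * q.1) ((κ : ℂ) • ContinuousLinearMap.fst ℂ ℂ ℂ) p :=
    (h1.const_mul (κ : ℂ)).const_add c
  have h5 : HasFDerivAt (fun q : ℂ × ℂ => γ q.1 + q.2)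
      (deriv γ p.1 • ContinuousLinearMap.fst ℂ ℂ ℂ + ContinuousLinearMap.snd ℂ ℂ ℂ) p := h3.add h2
  have h6 : HasFDerivAt (fun _ : ℂ × ℂ => (1 : ℂ)) (0 : ℂ × ℂ →L[ℂ] ℂ) p := hasFDerivAt_const _ _
  by_cases hι : ι = 0
  · refine ⟨ContinuousLinearMap.pi ![0, (κ : ℂ) • ContinuousLinearMap.fst ℂ ℂ ℂ,
      deriv γ p.1 • ContinuousLinearMap.fst ℂ ℂ ℂ + ContinuousLinearMap.snd ℂ ℂ ℂ], ?_, ?_, ?_⟩
    · rw [hasFDerivAt_pi']
      intro i
      subst hι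
      fin_cases i
      · exact h6
      · exact h4
      · exact h5
    · subst hι
      funext i
      fin_cases i <;> simp [VCP_X]
    · funext i
      fin_cases i <;> simp
  · have hι1 : ι = 1 := by omega
    refine ⟨ContinuousLinearMap.pi ![(κ : ℂ) • ContinuousLinearMap.fst ℂ ℂ ℂ, 0,
      deriv γ p.1 • ContinuousLinearMap.fst ℂ ℂ ℂ + ContinuousLinearMap.snd ℂ ℂ ℂ], ?_, ?_, ?_⟩
    · rw [hasFDerivAt_pi']
      intro i
      subst hι1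
      fin_cases i
      · exact h4
      · exact h6
      · exact h5
    · subst hι1
      funext i
      fin_cases i <;> simp [VCP_X]
    · funext i
      fin_cases i <;> simp

theorem VCP_nqX (ι : Fin 2) (κ : ℝ) (b : ℂ) : nq (VCP_X ι κ b) = κ ^ 2 + ‖b‖ ^ 2 := by
  rw [ENC_nq3]
  unfold VCP_X
  split_ifs <;> simp [Complex.normSq_eq_norm_sq]

theorem VCP_cX (ι : Fin 2) (c : ℂ) (κ : ℝ) (γ : ℂ → ℂ) (p : ℂ × ℂ) (b : ℂ) :
    κ ^ 2 ≤ nq (crs (gp ι c κ γ p) (VCP_X ι κ b)) := by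
  have h1 : Complex.normSq (crs (gp ι c κ γ p) (VCP_X ι κ b) 2) = κ ^ 2 := by
    unfold VCP_X gp cht
    split_ifs <;> simp [crs, Complex.normSq_eq_norm_sq]
  rw [ENC_nq3, h1]
  have h2 := Complex.normSq_nonneg (crs (gp ι c κ γ p) (VCP_X ι κ b) 0)
  have h3 := Complex.normSq_nonneg (crs (gp ι c κ γ p) (VCP_X ι κ b) 1)
  linarith

theorem VCP_gpι (ι : Fin 2) (c : ℂ) (κ : ℝ) (γ : ℂ → ℂ) (p : ℂ × ℂ) : gp ι c κ γ p ι.castSucc = 1 := by
  fin_cases ι <;> simp [gp, cht]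

/-- the lift is holomorphic -/
theorem VCP_It {d : ℕ} (f : Endo 2 d) (m : ℕ) : ContDiff ℂ ∞ (It f m) := contDiff_pi.2 fun i => PSC_Itc f m i

theorem VCP_fd {d : ℕ} (f : Endo 2 d) (m : ℕ) (W X : E3) (i : Fin 3) :
    fderiv ℂ (It f m) W X i = fderiv ℂ (fun W : E3 => It f m W i) W X := by
  have h1 : HasFDerivAt (It f m) (fderiv ℂ (It f m) W) W :=
    (((VCP_It f m).differentiable (by simp)) W).hasFDerivAt
  have h2 := hasFDerivAt_pi'.1 h1 i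
  rw [h2.fderiv]
  rfl

theorem VCP_chain {d : ℕ} (f : Endo 2 d) (m : ℕ) (ι : Fin 2) (c : ℂ) (κ : ℝ) (γ : ℂ → ℂ) (p : ℂ × ℂ)
    (hγ : DifferentiableAt ℂ γ p.1) :
    fderiv ℂ (fun q => It f m (gp ι c κ γ q)) p (1, 0) = fderiv ℂ (It f m) (gp ι c κ γ p) (VCP_X ι κ (deriv γ p.1)) ∧
    fderiv ℂ (fun q => It f m (gp ι c κ γ q)) p (0, 1) = fderiv ℂ (It f m) (gp ι c κ γ p) (Pi.single 2 1) := by
  obtain ⟨L, hL, h1, h2⟩ := VCP_gpd ι c κ γ p hγ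
  have h3 : HasFDerivAt (It f m) (fderiv ℂ (It f m) (gp ι c κ γ p)) (gp ι c κ γ p) :=
    (((VCP_It f m).differentiable (by simp)) _).hasFDerivAt
  have h4 : HasFDerivAt (fun q => It f m (gp ι c κ γ q)) ((fderiv ℂ (It f m) (gp ι c κ γ p)).comp L) p := h3.comp p hL
  rw [h4.fderiv]
  exact ⟨by rw [ContinuousLinearMap.comp_apply, h1], by rw [ContinuousLinearMap.comp_apply, h2]⟩

/-! ### the numbers -/

theorem VCP_log {a b M e : ℝ} (ha : 0 ≤ a) (hab : a ≤ M * b) (hb : 0 ≤ b) (hM : 1 ≤ M) (he : 0 < e) :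
    Real.log (a + e) ≤ Real.log (b + e) + Real.log M := by
  have h1 : a + e ≤ M * (b + e) := by nlinarith
  have h2 : 0 < b + e := by linarith
  rw [← Real.log_mul h2.ne' (by linarith)]
  apply Real.log_le_log (by linarith)
  linarith

/-- consequences of `UN1` -/
theorem VCP_un {d : ℕ} {f : Endo 2 d} {U : Set (PP 2)} {CU : ℝ} (hd : 2 ≤ d)
    (h1 : ∀ n N : ℕ, n ≤ N → ∀ Z ∈ cone (closure U), |un f N Z - un f n Z| ≤ CU / (d : ℝ) ^ n)
    (h3 : ∀ n : ℕ, ∀ Z ∈ cone (closure U), 0 < pq (It f n Z) ∧ nq (It f n Z) ≤ CU * pq (It f n Z))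
    (h4 : ∀ n : ℕ, ∀ Z ∈ cone (closure U), |(1 / 2) * Real.log (nq (It f n Z)) - (d : ℝ) ^ n * un f n Z| ≤ CU)
    {m N : ℕ} (hmN : m ≤ N) {W : E3} (hW : W ∈ cone (closure U)) :
    0 < nq (It f m W) ∧ Real.exp (-(4 * (d : ℝ) ^ m * un f N W)) * nq (It f m W) ^ 2 ≤ Real.exp (8 * CU) ∧
      1 ≤ Real.exp (8 * CU) * (Real.exp (-(4 * (d : ℝ) ^ m * un f N W)) * nq (It f m W) ^ 2) := by
  have hpq := (h3 m W hW).1
  have hpos : 0 < nq (It f m W) := hpq.trans_le (by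
    rw [ENC_nq3]
    unfold pq
    linarith [Complex.normSq_nonneg (It f m W 2)])
  have hdm : 0 < (d : ℝ) ^ m := by positivity
  have a1 : |(d : ℝ) ^ m * un f N W - (d : ℝ) ^ m * un f m W| ≤ CU := by
    have b1 := h1 m N hmN W hW
    rw [← mul_sub, abs_mul, abs_of_pos hdm]
    rw [le_div_iff₀ hdm] at b1
    linarith
  have a2 := h4 m W hW
  rw [abs_le] at a1 a2
  have e1 : Real.exp (-(4 * (d : ℝ) ^ m * un f N W)) * nq (It f m W) ^ 2 =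
      Real.exp (4 * ((1 / 2) * Real.log (nq (It f m W)) - (d : ℝ) ^ m * un f N W)) := by
    have b2 : nq (It f m W) ^ 2 = Real.exp (2 * Real.log (nq (It f m W))) := by
      rw [two_mul, Real.exp_add, Real.exp_log hpos, sq]
    rw [b2, ← Real.exp_add]
    congr 1
    ring
  refine ⟨hpos, ?_, ?_⟩
  · rw [e1]
    apply Real.exp_le_exp.2
    linarith [a1.1, a2.2]
  · rw [e1, ← Real.exp_add]
    apply Real.one_le_exp
    linarith [a1.2, a2.1]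

/-- the pointwise comparison on the tube -/
theorem VCP_pt {d : ℕ} {f : Endo 2 d} {U : Set (PP 2)} {CU CJ CS : ℝ} (hd : 2 ≤ d) (hCU : 0 < CU) (hCJ : 1 ≤ CJ) (hCS : 0 ≤ CS)
    (h1 : ∀ n N : ℕ, n ≤ N → ∀ Z ∈ cone (closure U), |un f N Z - un f n Z| ≤ CU / (d : ℝ) ^ n)
    (h3 : ∀ n : ℕ, ∀ Z ∈ cone (closure U), 0 < pq (It f n Z) ∧ nq (It f n Z) ≤ CU * pq (It f n Z))
    (h4 : ∀ n : ℕ, ∀ Z ∈ cone (closure U), |(1 / 2) * Real.log (nq (It f n Z)) - (d : ℝ) ^ n * un f n Z| ≤ CU)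
    {Λ : ℝ} {m N : ℕ} (hΛ : 0 ≤ Λ) (hmN : m ≤ N) {κ : ℝ} (hκ : 0 < κ) (hκ1 : κ ≤ 1 / 10) {ι : Fin 2} {c : ℂ} {γ : ℂ → ℂ} {p : ℂ × ℂ}
    (hγ : DifferentiableAt ℂ γ p.1) (hW : gp ι c κ γ p ∈ cone (closure U)) (hn1 : 1 ≤ nq (gp ι c κ γ p))
    (hγ' : ‖deriv γ p.1‖ ≤ CJ) (hS : |Psf f Λ m N (gp ι c κ γ p)| ≤ (CS + Λ) * (m + 1)) :
    |Th f Λ m N ι c κ γ p| ≤ (CS + Real.log (CJ ^ 2 + 1) + Λ) * (m + 1) ∧ 0 ≤ Lf f m (Λ * m) ι c κ γ p ∧
      Lf f m (Λ * m) ι c κ γ p ≤ Psf f Λ m N (gp ι c κ γ p) - Th f Λ m N ι c κ γ p +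
        (Real.log (Real.exp (8 * CU) * (CJ ^ 2 + 2)) + Real.log (Real.exp (8 * CU))) := by
  obtain ⟨hH, hE1, hE2⟩ := VCP_un hd h1 h3 h4 hmN hW
  obtain ⟨c1, c2⟩ := VCP_chain f m ι c κ γ p hγ
  set W : E3 := gp ι c κ γ p with hWdef
  set H : E3 := It f m W with hHdef
  set E : ℝ := Real.exp (-(4 * (d : ℝ) ^ m * un f N W)) with hEdef
  set K : ℝ := Real.exp (8 * CU) with hKdef
  set e : ℝ := Real.exp (-(Λ * m)) with hedef
  set S : ℝ := ∑ i : Fin 3, nq (crs H (fderiv ℂ (It f m) W (Pi.single i 1))) with hSdef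
  set n1 : ℝ := nq (crs H (fderiv ℂ (It f m) W (VCP_X ι κ (deriv γ p.1)))) with hn1def
  set n2 : ℝ := nq (crs H (fderiv ℂ (It f m) W (Pi.single 2 1))) with hn2def
  have hE0 : 0 < E := Real.exp_pos _
  have he0 : 0 < e := Real.exp_pos _
  have hK1 : 1 ≤ K := Real.one_le_exp (by linarith)
  have hS0 : 0 ≤ S := Finset.sum_nonneg fun i _ => VCP_nq0 _
  have hn10 : 0 ≤ n1 := VCP_nq0 _
  have hn20 : 0 ≤ n2 := VCP_nq0 _
  have hCJ2 : ‖deriv γ p.1‖ ^ 2 ≤ CJ ^ 2 := by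
    have := norm_nonneg (deriv γ p.1)
    nlinarith
  have b1 : n1 ≤ (CJ ^ 2 + 1) * S := by
    have b2 := VCP_cs H (fderiv ℂ (It f m) W) (VCP_X ι κ (deriv γ p.1))
    rw [VCP_nqX] at b2
    refine b2.trans (mul_le_mul_of_nonneg_right ?_ hS0)
    nlinarith
  have b2 : n2 ≤ S := by
    have b3 := VCP_cs H (fderiv ℂ (It f m) W) (Pi.single 2 1)
    have b4 : nq (Pi.single 2 1 : E3) = 1 := by rw [ENC_nq3]; simp
    rw [b4, one_mul] at b3
    exact b3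
  have hhop : hop f m N W = nq W * S * E := rfl
  have hSE : S * E ≤ hop f m N W := by
    rw [hhop]
    have := mul_nonneg hS0 hE0.le
    nlinarith
  have hhop0 : 0 ≤ hop f m N W := (mul_nonneg hS0 hE0.le).trans hSE
  have hPsf : Psf f Λ m N W = Real.log (hop f m N W + e) := rfl
  have hTh : Th f Λ m N ι c κ γ p = Real.log (n1 * E + e) := by
    unfold Th
    rw [c1]
  have hA1 : Af f m ι c κ γ p (1, 0) = n1 / nq H ^ 2 := by
    unfold Af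
    rw [c1]
  have hA2 : Af f m ι c κ γ p (0, 1) = n2 / nq H ^ 2 := by
    unfold Af
    rw [c2]
  have hLf : Lf f m (Λ * m) ι c κ γ p = Real.log (n1 / nq H ^ 2 + n2 / nq H ^ 2 + e) - Real.log (n1 / nq H ^ 2 + e) := by
    unfold Lf
    rw [hA1, hA2]
  have hH2 : 0 < nq H ^ 2 := by positivity
  have hM1 : (1 : ℝ) ≤ CJ ^ 2 + 1 := by nlinarith
  have hee : Real.log e = -(Λ * m) := Real.log_exp _
  rw [hPsf] at hS
  rw [hLf, hPsf, hTh]
  clear_value n1 n2 S E e K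
  generalize hop f m N W = h at *
  generalize nq H ^ 2 = q at *
  clear hLf hA1 hA2 hTh hPsf hhop c1 c2
  -- `Th ≤ Psf + log M`
  have t1 : Real.log (n1 * E + e) ≤ Real.log (h + e) + Real.log (CJ ^ 2 + 1) := by
    apply VCP_log (mul_nonneg hn10 hE0.le) _ hhop0 hM1 he0
    calc n1 * E ≤ ((CJ ^ 2 + 1) * S) * E := mul_le_mul_of_nonneg_right b1 hE0.le
      _ = (CJ ^ 2 + 1) * (S * E) := by ring
      _ ≤ (CJ ^ 2 + 1) * h := mul_le_mul_of_nonneg_left hSE (by linarith)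
  have t2 : -(Λ * m) ≤ Real.log (n1 * E + e) := by
    rw [← hee]
    apply Real.log_le_log he0
    linarith [mul_nonneg hn10 hE0.le]
  have hinv : q⁻¹ ≤ K * E := by
    rw [inv_le_iff_one_le_mul₀ hH2]
    calc (1 : ℝ) ≤ K * (E * q) := hE2
      _ = _ := by ring
  have hEle : E ≤ K * q⁻¹ := by
    rw [← div_eq_mul_inv, le_div_iff₀ hH2]
    exact hE1
  -- numerator
  have t4 : Real.log (n1 / q + n2 / q + e) ≤ Real.log (h + e) + Real.log (K * (CJ ^ 2 + 2)) := by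
    apply VCP_log _ _ hhop0 _ he0
    · positivity
    · calc n1 / q + n2 / q = (n1 + n2) * (q)⁻¹ := by ring
        _ ≤ ((CJ ^ 2 + 2) * S) * (K * E) := by
            apply mul_le_mul _ hinv (by positivity) (by positivity)
            linarith
        _ = K * (CJ ^ 2 + 2) * (S * E) := by ring
        _ ≤ K * (CJ ^ 2 + 2) * h := mul_le_mul_of_nonneg_left hSE (by positivity)
    · nlinarith
  have t5 : Real.log (n1 * E + e) ≤ Real.log (n1 / q + e) + Real.log K := by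
    apply VCP_log (mul_nonneg hn10 hE0.le) _ (by positivity) hK1 he0
    calc n1 * E ≤ n1 * (K * (q)⁻¹) := mul_le_mul_of_nonneg_left hEle hn10
      _ = K * (n1 / q) := by ring
  have t6 : Real.log (n1 / q + e) ≤ Real.log (n1 / q + n2 / q + e) := by
    apply Real.log_le_log (by positivity)
    have : 0 ≤ n2 / q := by positivity
    linarith
  rw [abs_le] at hS
  have hlog0 : 0 ≤ Real.log (CJ ^ 2 + 1) := Real.log_nonneg hM1
  have hm0 : (0 : ℝ) ≤ m := Nat.cast_nonneg m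
  refine ⟨?_, ?_, ?_⟩
  · rw [abs_le]
    constructor
    · have g1 := mul_nonneg (add_nonneg hCS hlog0) (by linarith : (0 : ℝ) ≤ (m : ℝ) + 1)
      have g2 : (CS + Real.log (CJ ^ 2 + 1) + Λ) * ((m : ℝ) + 1) = (CS + Real.log (CJ ^ 2 + 1)) * ((m : ℝ) + 1) + Λ * m + Λ := by ring
      rw [g2]
      linarith
    · have g1 := mul_nonneg hlog0 hm0
      have g2 : (CS + Real.log (CJ ^ 2 + 1) + Λ) * ((m : ℝ) + 1) = (CS + Λ) * ((m : ℝ) + 1) + Real.log (CJ ^ 2 + 1) * m + Real.log (CJ ^ 2 + 1) := by ring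
      rw [g2]
      linarith [hS.2]
  · linarith
  · linarith

/-! ### smoothness -/

theorem VCP_gps (ι : Fin 2) (c : ℂ) (κ : ℝ) {γ : ℂ → ℂ} (hγ : DifferentiableOn ℂ γ (ball 0 1)) :
    ContDiffOn ℂ ∞ (gp ι c κ γ) (ball 0 1 ×ˢ univ) := by
  have h0 : ContDiffOn ℂ ∞ γ (ball 0 1) := hγ.contDiffOn isOpen_ball
  have h1 : ContDiff ℂ ∞ (fun q : ℂ × ℂ => q.1) := contDiff_fst
  have h2 : ContDiffOn ℂ ∞ (fun q : ℂ × ℂ => γ q.1 + q.2) (ball 0 1 ×ˢ univ) :=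
    (h0.comp h1.contDiffOn fun q hq => hq.1).add contDiff_snd.contDiffOn
  have h3 : ContDiffOn ℂ ∞ (fun q : ℂ × ℂ => c + (κ : ℂ) * q.1) (ball 0 1 ×ˢ univ) :=
    (contDiff_const.add (contDiff_const.mul h1)).contDiffOn
  have h4 : ContDiffOn ℂ ∞ (fun _ : ℂ × ℂ => (1 : ℂ)) (ball 0 1 ×ˢ univ) := contDiffOn_const
  rw [contDiffOn_pi]
  intro i
  fin_cases ι
  · fin_cases i
    · exact h4
    · exact h3
    · exact h2
  · fin_cases i
    · exact h3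
    · exact h4
    · exact h2

theorem VCP_nqcrs {s : Set (ℂ × ℂ)} {G1 G2 : ℂ × ℂ → E3} (h1 : ContDiffOn ℂ ∞ G1 s) (h2 : ContDiffOn ℂ ∞ G2 s) :
    ContDiffOn ℝ ∞ (fun p => nq (crs (G1 p) (G2 p))) s := by
  have a1 := fun i => (contDiffOn_pi.1 h1 i)
  have a2 := fun i => (contDiffOn_pi.1 h2 i)
  have a3 : ∀ i : Fin 3, ContDiffOn ℂ ∞ (fun p => crs (G1 p) (G2 p) i) s := by
    intro i
    fin_cases i
    · exact ((a1 1).mul (a2 2)).sub ((a1 2).mul (a2 1))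
    · exact ((a1 2).mul (a2 0)).sub ((a1 0).mul (a2 2))
    · exact ((a1 0).mul (a2 1)).sub ((a1 1).mul (a2 0))
  have a4 : ∀ i : Fin 3, ContDiffOn ℝ ∞ (fun p => Complex.normSq (crs (G1 p) (G2 p) i)) s := fun i =>
    PSC_normSq.comp_contDiffOn ((a3 i).restrict_scalars ℝ)
  have e : (fun p => nq (crs (G1 p) (G2 p))) = fun p => Complex.normSq (crs (G1 p) (G2 p) 0) +
      Complex.normSq (crs (G1 p) (G2 p) 1) + Complex.normSq (crs (G1 p) (G2 p) 2) := by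
    funext p
    exact ENC_nq3 _
  rw [e]
  exact ((a4 0).add (a4 1)).add (a4 2)

theorem VCP_nqs {s : Set (ℂ × ℂ)} {G1 : ℂ × ℂ → E3} (h1 : ContDiffOn ℂ ∞ G1 s) :
    ContDiffOn ℝ ∞ (fun p => nq (G1 p)) s ∧ ContDiffOn ℝ ∞ (fun p => pq (G1 p)) s := by
  have a1 := fun i => (contDiffOn_pi.1 h1 i)
  have a4 : ∀ i : Fin 3, ContDiffOn ℝ ∞ (fun p => Complex.normSq (G1 p i)) s := fun i =>
    PSC_normSq.comp_contDiffOn ((a1 i).restrict_scalars ℝ)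
  have e : (fun p => nq (G1 p)) = fun p => Complex.normSq (G1 p 0) +
      Complex.normSq (G1 p 1) + Complex.normSq (G1 p 2) := by
    funext p
    exact ENC_nq3 _
  rw [e]
  exact ⟨((a4 0).add (a4 1)).add (a4 2), (a4 0).add (a4 1)⟩

theorem VCP_smooth {d : ℕ} (f : Endo 2 d) (Λ : ℝ) (m N : ℕ) (ι : Fin 2) (c : ℂ) (κ : ℝ) {γ : ℂ → ℂ} {O : Set (ℂ × ℂ)}
    (hO : O ⊆ ball 0 1 ×ˢ univ) (hγ : DifferentiableOn ℂ γ (ball 0 1)) (hpq : ∀ k : ℕ, ∀ p ∈ O, 0 < pq (It f k (gp ι c κ γ p)))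
    (hnq : ∀ p ∈ O, 0 < nq (It f m (gp ι c κ γ p))) :
    ContDiffOn ℝ ∞ (Th f Λ m N ι c κ γ) O ∧ ContinuousOn (Lf f m (Λ * m) ι c κ γ) O := by
  have hopen : IsOpen ((ball (0 : ℂ) 1) ×ˢ (univ : Set ℂ)) := isOpen_ball.prod isOpen_univ
  have hG : ∀ k : ℕ, ContDiffOn ℂ ∞ (fun q => It f k (gp ι c κ γ q)) (ball 0 1 ×ˢ univ) := fun k =>
    (VCP_It f k).comp_contDiffOn (VCP_gps ι c κ hγ)
  have hdG : ∀ a : ℂ × ℂ, ContDiffOn ℂ ∞ (fun p => fderiv ℂ (fun q => It f m (gp ι c κ γ q)) p a) (ball 0 1 ×ˢ univ) := by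
    intro a
    exact ((hG m).fderiv_of_isOpen hopen (by simp)).clm_apply contDiffOn_const
  have hn : ∀ a : ℂ × ℂ, ContDiffOn ℝ ∞ (fun p => nq (crs (It f m (gp ι c κ γ p))
      (fderiv ℂ (fun q => It f m (gp ι c κ γ q)) p a))) O := fun a =>
    (VCP_nqcrs (hG m) (hdG a)).mono hO
  have hu : ContDiffOn ℝ ∞ (fun p => un f N (gp ι c κ γ p)) O := by
    unfold un
    refine ContDiffOn.div_const (contDiffOn_const.mul (ContDiffOn.log ((VCP_nqs (hG N)).2.mono hO) ?_)) _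
    intro p hp
    exact (hpq N p hp).ne'
  constructor
  · unfold Th
    refine ContDiffOn.log (((hn (1, 0)).mul (ContDiffOn.exp (contDiffOn_const.mul hu).neg)).add contDiffOn_const) ?_
    intro p hp
    have h1 := VCP_nq0 (crs (It f m (gp ι c κ γ p)) (fderiv ℂ (fun q => It f m (gp ι c κ γ q)) p (1, 0)))
    have h2 := Real.exp_pos (-(4 * (d : ℝ) ^ m * un f N (gp ι c κ γ p)))
    have h3 := Real.exp_pos (-(Λ * m))
    have h4 := mul_nonneg h1 h2.le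
    exact (add_pos_of_nonneg_of_pos h4 h3).ne'
  · have hA : ∀ a : ℂ × ℂ, ContinuousOn (fun p => Af f m ι c κ γ p a) O := by
      intro a
      unfold Af
      refine (hn a).continuousOn.div (((VCP_nqs (hG m)).1.mono hO).continuousOn.pow 2) ?_
      intro p hp
      exact pow_ne_zero 2 (hnq p hp).ne'
    have hA0 : ∀ (p a : ℂ × ℂ), 0 ≤ Af f m ι c κ γ p a := fun p a => div_nonneg (VCP_nq0 _) (sq_nonneg _)
    unfold Lf
    refine ContinuousOn.sub (ContinuousOn.log ?_ ?_) (ContinuousOn.log ?_ ?_)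
    · exact ((hA (1, 0)).add (hA (0, 1))).add continuousOn_const
    · intro p hp
      have h1 := hA0 p (1, 0)
      have h2 := hA0 p (0, 1)
      have h3 := Real.exp_pos (-(Λ * m))
      exact (by linarith : 0 < Af f m ι c κ γ p (1, 0) + Af f m ι c κ γ p (0, 1) + Real.exp (-(Λ * m))).ne'
    · exact (hA (1, 0)).add continuousOn_const
    · intro p hp
      have h1 := hA0 p (1, 0)
      have h3 := Real.exp_pos (-(Λ * m))
      exact (by linarith : 0 < Af f m ι c κ γ p (1, 0) + Real.exp (-(Λ * m))).ne'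

/-! ### invariance -/

theorem VCP_unhom {d : ℕ} (f : Endo 2 d) (hd : 2 ≤ d) (N : ℕ) (W : E3) (a : ℂ) (ha : a ≠ 0) (hpq : 0 < pq (It f N W)) :
    un f N (a • W) = un f N W + (1 / 2) * Real.log (Complex.normSq a) := by
  have hn : 0 < Complex.normSq a := Complex.normSq_pos.2 ha
  have hdN : 0 < (d : ℝ) ^ N := by positivity
  unfold un
  rw [ENC_Ithom, PSC_pqsmul, map_pow, Real.log_mul (pow_pos hn _).ne' hpq.ne', Real.log_pow]
  push_cast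
  field_simp
  ring

theorem VCP_Rv {d : ℕ} (f : Endo 2 d) (hd : 2 ≤ d) (m N : ℕ) (W X : E3) (a b s : ℂ) (ha : a ≠ 0) (hb : b ≠ 0)
    (hpq : 0 < pq (It f N W)) (hne : 0 < nq (crs W X)) :
    Rv f m N (a • W) (b • X + s • W) = Rv f m N W X := by
  have hn : 0 < Complex.normSq a := Complex.normSq_pos.2 ha
  have hnb : 0 < Complex.normSq b := Complex.normSq_pos.2 hb
  have e1 : crs (a • W) (b • X + s • W) = (a * b) • crs W X := by
    rw [VCP_crs_smul', VCP_crs_add, VCP_crs_smul, VCP_crs_smul, VCP_crs_self, smul_zero, add_zero, smul_smul]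
  have e2 : a • fderiv ℂ (It f m) (a • W) (b • X + s • W) = a ^ d ^ m • fderiv ℂ (It f m) W (b • X + s • W) := by
    funext i
    rw [Pi.smul_apply, Pi.smul_apply, VCP_fd, VCP_fd, smul_eq_mul, smul_eq_mul]
    exact PSC_dhom f m i a W _
  have e3 : fderiv ℂ (It f m) W W = ((d ^ m : ℕ) : ℂ) • It f m W := by
    funext i
    rw [VCP_fd, Pi.smul_apply, smul_eq_mul]
    exact ENC_euler f m i W
  have e4 : a • crs (It f m (a • W)) (fderiv ℂ (It f m) (a • W) (b • X + s • W)) =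
      (a ^ d ^ m * (a ^ d ^ m * b)) • crs (It f m W) (fderiv ℂ (It f m) W X) := by
    rw [← VCP_crs_smul, e2, ENC_Ithom, VCP_crs_smul', VCP_crs_smul, map_add, map_smul, map_smul, e3, VCP_crs_add,
      VCP_crs_smul, VCP_crs_smul, VCP_crs_smul, VCP_crs_self, smul_zero, smul_zero, add_zero, smul_smul, smul_smul]
    congr 1
    ring
  have e5 : Complex.normSq a * nq (crs (It f m (a • W)) (fderiv ℂ (It f m) (a • W) (b • X + s • W))) =
      (Complex.normSq a ^ d ^ m) ^ 2 * Complex.normSq b * nq (crs (It f m W) (fderiv ℂ (It f m) W X)) := by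
    rw [← PSC_nqsmul, e4, PSC_nqsmul, Complex.normSq_mul, Complex.normSq_mul, map_pow]
    ring
  have e6 : nq (crs (a • W) (b • X + s • W)) = Complex.normSq a * Complex.normSq b * nq (crs W X) := by
    rw [e1, PSC_nqsmul, Complex.normSq_mul]
  have e7 : Real.exp (4 * un f N (a • W) - 4 * (d : ℝ) ^ m * un f N (a • W)) * (Complex.normSq a ^ d ^ m) ^ 2 =
      Real.exp (4 * un f N W - 4 * (d : ℝ) ^ m * un f N W) * Complex.normSq a ^ 2 := by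
    rw [VCP_unhom f hd N W a ha hpq]
    have g1 : (Complex.normSq a ^ d ^ m) ^ 2 = Real.exp (2 * ((d : ℝ) ^ m * Real.log (Complex.normSq a))) := by
      have g2 : Real.exp ((d : ℝ) ^ m * Real.log (Complex.normSq a)) = Complex.normSq a ^ d ^ m := by
        have g3 : (d : ℝ) ^ m = ((d ^ m : ℕ) : ℝ) := by push_cast; rfl
        rw [g3, Real.exp_nat_mul, Real.exp_log hn]
      rw [two_mul, Real.exp_add, g2, sq]
    have g4 : Complex.normSq a ^ 2 = Real.exp (2 * Real.log (Complex.normSq a)) := by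
      rw [two_mul, Real.exp_add, Real.exp_log hn, sq]
    rw [g1, g4, ← Real.exp_add, ← Real.exp_add]
    congr 1
    ring
  unfold Rv
  rw [e6]
  generalize nq (crs (It f m (a • W)) (fderiv ℂ (It f m) (a • W) (b • X + s • W))) = x at *
  generalize nq (crs (It f m W) (fderiv ℂ (It f m) W X)) = y at *
  generalize Real.exp (4 * un f N (a • W) - 4 * (d : ℝ) ^ m * un f N (a • W)) = u at *
  generalize Real.exp (4 * un f N W - 4 * (d : ℝ) ^ m * un f N W) = v at *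
  generalize nq (crs W X) = q at *
  have hP : 0 < (Complex.normSq a ^ d ^ m) ^ 2 := by positivity
  generalize (Complex.normSq a ^ d ^ m) ^ 2 = P at *
  generalize Complex.normSq a = n at *
  generalize Complex.normSq b = n' at *
  have h1 : x = P * n' * y / n := by
    rw [eq_div_iff hn.ne']
    linarith
  have h2 : u = v * n ^ 2 / P := by
    rw [eq_div_iff hP.ne']
    exact e7
  rw [h1, h2]
  field_simp

/-! ### the disc -/

theorem VCP_disc {Y : ℂ → E3} {g γ : ℂ → ℂ} {ι : Fin 2} {c : ℂ} {κ : ℝ} (hκ : 0 < κ) (hY : DifferentiableOn ℂ Y (ball 0 1))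
    (hI : Is0 Y ι c κ g γ) {ξ : ℂ} (hξ : ξ ∈ ball (0 : ℂ) 1) :
    ∃ a b s : ℂ, a ≠ 0 ∧ b ≠ 0 ∧ Y (g ξ) = a • gp ι c κ γ (ξ, 0) ∧
      deriv Y (g ξ) = b • VCP_X ι κ (deriv γ ξ) + s • gp ι c κ γ (ξ, 0) := by
  obtain ⟨hg, hgm, hγ, hex⟩ := hI
  have hα : ∀ z ∈ ball (0 : ℂ) 1, Y (g z) ι.castSucc ≠ 0 ∧ Y (g z) = Y (g z) ι.castSucc • gp ι c κ γ (z, 0) := by
    intro z hz
    obtain ⟨a, ha, he⟩ := hex z hz
    have h1 : Y (g z) ι.castSucc = a := by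
      rw [he, Pi.smul_apply, VCP_gpι, smul_eq_mul, mul_one]
    rw [h1]
    exact ⟨ha, he⟩
  have hnb : ball (0 : ℂ) 1 ∈ 𝓝 ξ := isOpen_ball.mem_nhds hξ
  have hgd : HasDerivAt g (deriv g ξ) ξ := ((hg.differentiableAt hnb)).hasDerivAt
  have hYd : HasDerivAt Y (deriv Y (g ξ)) (g ξ) :=
    (hY.differentiableAt (isOpen_ball.mem_nhds (hgm ξ hξ))).hasDerivAt
  have h1 : HasDerivAt (fun z => Y (g z)) (deriv g ξ • deriv Y (g ξ)) ξ := hYd.scomp ξ hgd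
  have h2 : HasDerivAt (fun z => Y (g z) ι.castSucc) ((deriv g ξ • deriv Y (g ξ)) ι.castSucc) ξ :=
    (hasDerivAt_pi.1 h1) _
  obtain ⟨L, hL, hL1, -⟩ := VCP_gpd ι c κ γ (ξ, 0) (hγ.differentiableAt hnb)
  have h3 : HasDerivAt (fun z : ℂ => (z, (0 : ℂ))) ((1 : ℂ), (0 : ℂ)) ξ :=
    (hasDerivAt_id ξ).prodMk (hasDerivAt_const ξ (0 : ℂ))
  have h4 : HasDerivAt (fun z : ℂ => gp ι c κ γ (z, 0)) (VCP_X ι κ (deriv γ ξ)) ξ := by
    have h5 := hL.comp_hasDerivAt ξ h3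
    rw [hL1] at h5
    exact h5
  have h5 : HasDerivAt (fun z => Y (g z) ι.castSucc • gp ι c κ γ (z, 0))
      (Y (g ξ) ι.castSucc • VCP_X ι κ (deriv γ ξ) + (deriv g ξ • deriv Y (g ξ)) ι.castSucc • gp ι c κ γ (ξ, 0)) ξ :=
    h2.smul h4
  have h6 : (fun z => Y (g z)) =ᶠ[𝓝 ξ] fun z => Y (g z) ι.castSucc • gp ι c κ γ (z, 0) := by
    filter_upwards [hnb] with z hz
    exact (hα z hz).2
  have h7 := h1.unique (h5.congr_of_eventuallyEq h6)
  obtain ⟨ha0, ha1⟩ := hα ξ hξ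
  have hg0 : deriv g ξ ≠ 0 := by
    intro h0
    rw [h0, zero_smul] at h7
    have h8 := congrArg (crs (gp ι c κ γ (ξ, 0))) h7
    rw [VCP_crs_add, VCP_crs_smul, VCP_crs_smul, VCP_crs_self, smul_zero, add_zero] at h8
    have h9 : crs (gp ι c κ γ (ξ, 0)) 0 = 0 := by
      have := VCP_crs_smul (gp ι c κ γ (ξ, 0)) 0 0
      rwa [zero_smul, zero_smul] at this
    rw [h9] at h8
    have h10 := congrArg nq h8
    rw [PSC_nqsmul] at h10
    have h11 : nq (0 : E3) = 0 := by rw [ENC_nq3]; simp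
    rw [h11] at h10
    have h12 := VCP_cX ι c κ γ (ξ, 0) (deriv γ ξ)
    have h13 : 0 < Complex.normSq (Y (g ξ) ι.castSucc) := Complex.normSq_pos.2 ha0
    have h14 : 0 < nq (crs (gp ι c κ γ (ξ, 0)) (VCP_X ι κ (deriv γ ξ))) := lt_of_lt_of_le (by positivity) h12
    have h15 := mul_pos h13 h14
    rw [← h10] at h15
    exact lt_irrefl _ h15
  refine ⟨Y (g ξ) ι.castSucc, (deriv g ξ)⁻¹ * Y (g ξ) ι.castSucc, (deriv g ξ)⁻¹ * (deriv g ξ • deriv Y (g ξ)) ι.castSucc,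
    ha0, mul_ne_zero (inv_ne_zero hg0) ha0, ha1, ?_⟩
  rw [mul_smul, mul_smul, ← smul_add, ← h7, smul_smul, inv_mul_cancel₀ hg0, one_smul]

theorem VCP_pvTh {d : ℕ} {f : Endo 2 d} {U : Set (PP 2)} {CU CJ : ℝ} (hd : 2 ≤ d) (hCU : 0 < CU) (hCJ : 1 ≤ CJ)
    (h2 : ∀ n : ℕ, ∀ Z ∈ cone (closure U), |un f n Z - (1 / 2) * Real.log (nq Z)| ≤ CU)
    (h3 : ∀ n : ℕ, ∀ Z ∈ cone (closure U), 0 < pq (It f n Z) ∧ nq (It f n Z) ≤ CU * pq (It f n Z))
    {Λ : ℝ} {m N : ℕ} {κ : ℝ} (hκ : 0 < κ) (hκ1 : κ ≤ 1 / 10) {ι : Fin 2} {c : ℂ} {g γ : ℂ → ℂ} {Y : ℂ → E3} {ξ : ℂ}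
    (hY : DifferentiableOn ℂ Y (ball 0 1)) (hI : Is0 Y ι c κ g γ) (hξ : ξ ∈ ball (0 : ℂ) 1)
    (hW : gp ι c κ γ (ξ, 0) ∈ cone (closure U)) (hn1 : 1 ≤ nq (gp ι c κ γ (ξ, 0))) (hn2 : nq (gp ι c κ γ (ξ, 0)) ≤ CJ) :
    pv f Λ m N (Y (g ξ)) (deriv Y (g ξ)) ≤ Th f Λ m N ι c κ γ (ξ, 0) + Real.log (CJ ^ 2 * Real.exp (4 * CU) / κ ^ 2) := by
  obtain ⟨a, b, s, ha, hb, e1, e2⟩ := VCP_disc hκ hY hI hξ
  have hγd : DifferentiableAt ℂ γ (ξ, (0 : ℂ)).1 := hI.2.2.1.differentiableAt (isOpen_ball.mem_nhds hξ)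
  have hcX := VCP_cX ι c κ γ (ξ, 0) (deriv γ ξ)
  have hκ2 : 0 < κ ^ 2 := by positivity
  have hpos : 0 < nq (crs (gp ι c κ γ (ξ, 0)) (VCP_X ι κ (deriv γ ξ))) := lt_of_lt_of_le hκ2 hcX
  have e3 : Rv f m N (Y (g ξ)) (deriv Y (g ξ)) = Rv f m N (gp ι c κ γ (ξ, 0)) (VCP_X ι κ (deriv γ ξ)) := by
    rw [e1, e2]
    exact VCP_Rv f hd m N _ _ a b s ha hb (h3 N _ hW).1 hpos
  obtain ⟨c1, -⟩ := VCP_chain f m ι c κ γ (ξ, 0) hγd
  have hTh : Th f Λ m N ι c κ γ (ξ, 0) = Real.log (nq (crs (It f m (gp ι c κ γ (ξ, 0)))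
      (fderiv ℂ (It f m) (gp ι c κ γ (ξ, 0)) (VCP_X ι κ (deriv γ ξ)))) *
        Real.exp (-(4 * (d : ℝ) ^ m * un f N (gp ι c κ γ (ξ, 0)))) + Real.exp (-(Λ * m))) := by
    unfold Th
    rw [c1]
  have hu := h2 N _ hW
  rw [hTh]
  unfold pv
  rw [e3]
  have hM : 1 ≤ CJ ^ 2 * Real.exp (4 * CU) / κ ^ 2 := by
    rw [le_div_iff₀ hκ2]
    have g1 : 1 ≤ Real.exp (4 * CU) := Real.one_le_exp (by linarith)
    have g2 : κ ^ 2 ≤ 1 := by nlinarith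
    have g3 : 1 ≤ CJ ^ 2 := by nlinarith
    nlinarith
  have hnW : 0 < nq (gp ι c κ γ (ξ, 0)) := by linarith
  have hlog : Real.log (nq (gp ι c κ γ (ξ, 0))) ≤ Real.log CJ := Real.log_le_log hnW hn2
  have hexp : Real.exp (4 * un f N (gp ι c κ γ (ξ, 0))) ≤ CJ ^ 2 * Real.exp (4 * CU) := by
    have g1 : CJ ^ 2 = Real.exp (2 * Real.log CJ) := by
      rw [two_mul, Real.exp_add, Real.exp_log (by linarith), sq]
    rw [g1, ← Real.exp_add]
    apply Real.exp_le_exp.2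
    rw [abs_le] at hu
    linarith [hu.2]
  have hT0 := VCP_nq0 (crs (It f m (gp ι c κ γ (ξ, 0))) (fderiv ℂ (It f m) (gp ι c κ γ (ξ, 0)) (VCP_X ι κ (deriv γ ξ))))
  have hE0 := Real.exp_pos (-(4 * (d : ℝ) ^ m * un f N (gp ι c κ γ (ξ, 0))))
  have hRv : Rv f m N (gp ι c κ γ (ξ, 0)) (VCP_X ι κ (deriv γ ξ)) =
      nq (crs (It f m (gp ι c κ γ (ξ, 0))) (fderiv ℂ (It f m) (gp ι c κ γ (ξ, 0)) (VCP_X ι κ (deriv γ ξ)))) /
        nq (crs (gp ι c κ γ (ξ, 0)) (VCP_X ι κ (deriv γ ξ))) * (Real.exp (4 * un f N (gp ι c κ γ (ξ, 0))) *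
          Real.exp (-(4 * (d : ℝ) ^ m * un f N (gp ι c κ γ (ξ, 0))))) := by
    unfold Rv
    rw [← Real.exp_add]
    rfl
  apply VCP_log _ _ (mul_nonneg hT0 hE0.le) hM (Real.exp_pos _)
  · rw [hRv]
    exact mul_nonneg (div_nonneg hT0 hpos.le) (mul_nonneg (Real.exp_pos _).le hE0.le)
  · rw [hRv]
    have hu0 := Real.exp_pos (4 * un f N (gp ι c κ γ (ξ, 0)))
    generalize nq (crs (It f m (gp ι c κ γ (ξ, 0))) (fderiv ℂ (It f m) (gp ι c κ γ (ξ, 0)) (VCP_X ι κ (deriv γ ξ)))) = x at *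
    generalize nq (crs (gp ι c κ γ (ξ, 0)) (VCP_X ι κ (deriv γ ξ))) = q at *
    generalize Real.exp (4 * un f N (gp ι c κ γ (ξ, 0))) = u at *
    generalize Real.exp (-(4 * (d : ℝ) ^ m * un f N (gp ι c κ γ (ξ, 0)))) = E at *
    generalize Real.exp (4 * CU) = w at *
    calc x / q * (u * E) ≤ x / κ ^ 2 * (CJ ^ 2 * w * E) := by
          apply mul_le_mul (div_le_div_of_nonneg_left hT0 hκ2 hcX) (mul_le_mul_of_nonneg_right hexp hE0.le)
          · exact mul_nonneg hu0.le hE0.le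
          · exact div_nonneg hT0 hκ2.le
      _ = CJ ^ 2 * w / κ ^ 2 * (x * E) := by ring

theorem VCP (hUN1 : UN1_stmt) (hVSA : VSA_stmt) (hVJA : VJA_stmt) : VCP_stmt := by
  intro d f U κ hd hU hκ hκ1
  obtain ⟨CU, hCU, h1, h2, h3, h4⟩ := hUN1 d f U hd hU
  obtain ⟨CS, hCS, hS⟩ := hVSA d f U hd hU
  obtain ⟨CJ, hCJ, hJ⟩ := hVJA d f U hd hU
  have hK1 : 1 ≤ Real.exp (8 * CU) := Real.one_le_exp (by linarith)
  have hCJ2 : 1 ≤ CJ ^ 2 := by nlinarith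
  have l1 : 0 ≤ Real.log (CJ ^ 2 + 1) := Real.log_nonneg (by linarith)
  have l2 : 0 ≤ Real.log (Real.exp (8 * CU) * (CJ ^ 2 + 2)) := Real.log_nonneg (by nlinarith)
  have l3 : 0 ≤ Real.log (Real.exp (8 * CU)) := Real.log_nonneg hK1
  have l4 : 0 ≤ Real.log (CJ ^ 2 * Real.exp (4 * CU) / κ ^ 2) := by
    apply Real.log_nonneg
    rw [le_div_iff₀ (by positivity)]
    have g1 : 1 ≤ Real.exp (4 * CU) := Real.one_le_exp (by linarith)
    have g2 : κ ^ 2 ≤ 1 := by nlinarith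
    nlinarith
  refine ⟨CS + Real.log (CJ ^ 2 + 1) + Real.log (Real.exp (8 * CU) * (CJ ^ 2 + 2)) + Real.log (Real.exp (8 * CU)) +
    Real.log (CJ ^ 2 * Real.exp (4 * CU) / κ ^ 2), by linarith, ?_⟩
  intro Λ m N r ι c γ hΛ hmN hr hr4 hc hγ hcone
  have hcl : ∀ W ∈ cone U, W ∈ cone (closure U) := fun W hW => ⟨hW.1, subset_closure hW.2⟩
  obtain ⟨-, -, -, -, hJn, hJγ⟩ := hJ N r κ ι c γ hr hr4 hκ hκ1 hc hγ hcone
  have hsub : ball (0 : ℂ) (9 / 10) ×ˢ ball (0 : ℂ) r ⊆ ball 0 1 ×ˢ univ :=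
    prod_mono (ball_subset_ball (by norm_num)) (subset_univ _)
  have hmem : ∀ p ∈ ball (0 : ℂ) (9 / 10) ×ˢ ball (0 : ℂ) r, gp ι c κ γ p ∈ cone (closure U) := fun p hp =>
    hcl _ (hcone p.1 (ball_subset_ball (by norm_num) hp.1) p.2 hp.2)
  obtain ⟨s1, s2⟩ := VCP_smooth f Λ m N ι c κ hsub hγ (fun k p hp => (h3 k _ (hmem p hp)).1)
    (fun p hp => (VCP_un hd h1 h3 h4 hmN (hmem p hp)).1)
  refine ⟨s1, s2, ?_, ?_⟩
  · intro p hp
    have hp1 : p.1 ∈ ball (0 : ℂ) 1 := ball_subset_ball (by norm_num) hp.1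
    obtain ⟨a1, a2, a3⟩ := VCP_pt hd hCU hCJ (by linarith : 0 ≤ CS) h1 h3 h4 hΛ hmN hκ hκ1
      (hγ.differentiableAt (isOpen_ball.mem_nhds hp1)) (hmem p hp) (hJn p ⟨hp1, hp.2⟩).1 (hJγ p.1 hp.1)
      (hS Λ m m N hΛ hmN _ (hcone p.1 hp1 p.2 hp.2) 0).2.2.2.1
    refine ⟨a1.trans ?_, a2, a3.trans ?_⟩
    · apply mul_le_mul_of_nonneg_right _ (by positivity)
      linarith
    · linarith
  · intro Y g hY hI ξ hξ
    have hp : (ξ, (0 : ℂ)) ∈ ball (0 : ℂ) (9 / 10) ×ˢ ball (0 : ℂ) r := ⟨hξ, mem_ball_self hr⟩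
    have hp1 : ξ ∈ ball (0 : ℂ) 1 := ball_subset_ball (by norm_num) hξ
    obtain ⟨b1, b2⟩ := hJn (ξ, 0) ⟨hp1, mem_ball_self hr⟩
    refine (VCP_pvTh hd hCU hCJ h2 h3 hκ hκ1 hY hI hp1 (hmem _ hp) b1 b2).trans ?_
    linarith

end Pool.Agent.P2V
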